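import Mathlib
import Pool.Agent.H2.JR1

namespace Pool.Agent.Results.MP_75529e_al.SemiprimeIdeal

/-- A (not necessarily associative) ring is a Jordan ring if it is commutative and satisfies
the Jordan identity `(x^2 y) x = x^2 (y x)`. -/
structure IsJordanRing (J : Type) [NonUnitalNonAssocRing J] : Prop where
  comm : ∀ x y : J, x * y = y * x
  jordan : ∀ x y : J, ((x * x) * y) * x = (x * x) * (y * x)

/-- The linearizations of the Jordan identity: the partial one, and the full one divided by two. -/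
structure SatisfiesLinearizations (J : Type) [NonUnitalNonAssocRing J] : Prop where
  partly : ∀ x z y : J, ((x * z) * y) * x + ((x * z) * y) * x + ((x * x) * y) * z =
    (x * z) * (y * x) + (x * z) * (y * x) + (x * x) * (y * z)
  full : ∀ x z w y : J, ((x * z) * y) * w + ((z * w) * y) * x + ((w * x) * y) * z =
    (x * z) * (y * w) + (z * w) * (y * x) + (w * x) * (y * z)

/-- An additive subgroup `A` of the ring `R` is a two-sided ideal. -/
def IsIdeal {R : Type} [NonUnitalNonAssocRing R] (A : AddSubgroup R) : Prop :=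
  ∀ r x : R, x ∈ A → r * x ∈ A ∧ x * r ∈ A

/-- A ring is semiprime if it has no nonzero ideal `K` with `K^2 = 0`. -/
def IsSemiprimeRing (R : Type) [NonUnitalNonAssocRing R] : Prop :=
  ∀ K : AddSubgroup R, IsIdeal K → (∀ a ∈ K, ∀ b ∈ K, a * b = 0) → K = ⊥

/-- A ring is prime if the product of two nonzero ideals is nonzero. -/
def IsPrimeRing (R : Type) [NonUnitalNonAssocRing R] : Prop :=
  ∀ A B : AddSubgroup R, IsIdeal A → IsIdeal B → (∀ a ∈ A, ∀ b ∈ B, a * b = 0) →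
    A = ⊥ ∨ B = ⊥

open Pool.Agent.H2.JR

theorem ideal_kk (A : AddSubgroup J8) (hA : IsIdeal A) (h : A ≠ ⊥) : J8.kk ∈ A := by
  obtain ⟨x, hx1⟩ := (AddSubgroup.ne_bot_iff_exists_ne_zero (H := A)).1 h
  have hx : x.1 ∈ A := x.2
  have hx0 : x.1 ≠ 0 := fun h0 => hx1 (Subtype.ext h0)
  obtain ⟨y, w, hyw⟩ := J8.to_kk _ hx0
  rw [← hyw]
  exact (hA w _ (hA y _ hx).2).2

theorem prime8 : IsPrimeRing J8 := by
  intro A B hA hB hAB
  by_contra hcon
  rw [not_or] at hcon
  have h1 := ideal_kk A hA hcon.1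
  have h2 := ideal_kk B hB hcon.2
  have h3 : (⟨0, 0, 0, 0, 0, 0, 0, 1⟩ : J8) * J8.kk ∈ A := (hA _ _ h1).1
  have h4 : (⟨0, 0, 0, 0, 0, 0, 0, 1⟩ : J8) * ((⟨0, 0, 0, 1, 0, 0, 0, 0⟩ : J8) * J8.kk) ∈ B :=
    (hB _ _ (hB _ _ h2).1).1
  have h5 := hAB _ h3 _ h4
  exact absurd h5 (by decide +kernel)

theorem semiprime8 : IsSemiprimeRing J8 := fun K hK h => (prime8 K K hK hK h).elim id id

/-- the ideal `S[t]/(t^2)` -/
def I8 : NonUnitalSubring J8 where
  carrier := {x | x.e = 0 ∧ x.z = 0}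
  zero_mem' := ⟨rfl, rfl⟩
  add_mem' := by
    rintro x y ⟨hx, hx'⟩ ⟨hy, hy'⟩
    exact ⟨by rw [J8.add_def]; change x.e + y.e = 0; rw [hx, hy, add_zero],
      by rw [J8.add_def]; change x.z + y.z = 0; rw [hx', hy', add_zero]⟩
  neg_mem' := by
    rintro x ⟨hx, hx'⟩
    exact ⟨by rw [J8.neg_def]; change -x.e = 0; rw [hx, neg_zero],
      by rw [J8.neg_def]; change -x.z = 0; rw [hx', neg_zero]⟩
  mul_mem' := by
    rintro x y ⟨hx, hx'⟩ ⟨hy, hy'⟩
    exact ⟨by rw [J8.mul_def]; change x.e * y.e = 0; rw [hx, zero_mul],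
      by rw [J8.mul_def]; change x.e * y.z + x.z * y.e = 0; rw [hx, hx', zero_mul, zero_mul,
        add_zero]⟩

theorem mem_I8 (x : J8) : x ∈ I8 ↔ x.e = 0 ∧ x.z = 0 := Iff.rfl

theorem ideal_I8 (r x : J8) (hx : x ∈ I8) : r * x ∈ I8 ∧ x * r ∈ I8 := by
  have h : r * x ∈ I8 := by
    obtain ⟨h1, h2⟩ := hx
    exact ⟨by rw [J8.mul_def]; change r.e * x.e = 0; rw [h1, mul_zero],
      by rw [J8.mul_def]; change r.e * x.z + r.z * x.e = 0; rw [h1, h2, mul_zero, mul_zero,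
        add_zero]⟩
  exact ⟨h, by rw [J8.comm]; exact h⟩

/-- the ideal `S t` of `S[t]/(t^2)` -/
def K8 : AddSubgroup I8 where
  carrier := {x | x.1.a = 0 ∧ x.1.b = 0 ∧ x.1.c = 0}
  zero_mem' := ⟨rfl, rfl, rfl⟩
  add_mem' := by
    rintro x y ⟨h1, h2, h3⟩ ⟨k1, k2, k3⟩
    exact ⟨by change x.1.a + y.1.a = 0; rw [h1, k1, add_zero],
      by change x.1.b + y.1.b = 0; rw [h2, k2, add_zero],
      by change x.1.c + y.1.c = 0; rw [h3, k3, add_zero]⟩
  neg_mem' := by
    rintro x ⟨h1, h2, h3⟩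
    exact ⟨by change -x.1.a = 0; rw [h1, neg_zero],
      by change -x.1.b = 0; rw [h2, neg_zero],
      by change -x.1.c = 0; rw [h3, neg_zero]⟩

theorem ideal_K8 : IsIdeal K8 := by
  intro r x hx
  have h : r * x ∈ K8 := by
    obtain ⟨h1, h2, h3⟩ := hx
    obtain ⟨r1, r2⟩ := r.2
    obtain ⟨x1, x2⟩ := x.2
    refine ⟨?_, ?_, ?_⟩
    · change (r.1 * x.1).a = 0
      simp only [J8.mul_def, h1, h2, h3, r1, r2, x1, x2]
      simp
    · change (r.1 * x.1).b = 0
      simp only [J8.mul_def, h1, h2, h3, r1, r2, x1, x2]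
      simp
    · change (r.1 * x.1).c = 0
      simp only [J8.mul_def, h1, h2, h3, r1, r2, x1, x2]
      simp
  refine ⟨h, ?_⟩
  have : x * r = r * x := Subtype.ext (J8.comm _ _)
  rw [this]; exact h

theorem not_semiprime_I8 : ¬ IsSemiprimeRing I8 := by
  intro h
  have h1 : K8 = ⊥ := by
    apply h K8 ideal_K8
    intro x hx y hy
    obtain ⟨h1, h2, h3⟩ := hx
    obtain ⟨k1, k2, k3⟩ := hy
    obtain ⟨r1, r2⟩ := x.2
    obtain ⟨x1, x2⟩ := y.2
    apply Subtype.ext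
    change x.1 * y.1 = 0
    ext <;> simp [J8.mul_def, J8.zero_def, h1, h2, h3, r1, r2, x1, x2, k1, k2, k3]
  have h2 : (⟨J8.kk, ⟨rfl, rfl⟩⟩ : I8) ∈ K8 := ⟨rfl, rfl, rfl⟩
  rw [h1, AddSubgroup.mem_bot] at h2
  exact absurd (congrArg Subtype.val h2) (by decide +kernel)

/-- There is a finite prime (in particular semiprime) Jordan ring `J` with identity, satisfying
all linearizations of the Jordan identity as well, with an ideal `I` that is not semiprime as a
ring. -/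
theorem result : ∃ (J : Type) (_ : NonAssocRing J), Finite J ∧ IsJordanRing J ∧
    SatisfiesLinearizations J ∧ IsPrimeRing J ∧ IsSemiprimeRing J ∧
    ∃ I : NonUnitalSubring J, (∀ r x : J, x ∈ I → r * x ∈ I ∧ x * r ∈ I) ∧
      ¬ IsSemiprimeRing I := by
  refine ⟨J8, inferInstance, inferInstance, ⟨J8.comm, J8.jordan⟩, ⟨?_, ?_⟩, prime8, semiprime8,
    I8, ideal_I8, not_semiprime_I8⟩
  · intro x z y
    rw [J8.char2, J8.char2, zero_add, zero_add, J8.sq, J8.sc_mul, J8.sc_mul]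
    ext <;> simp only [J8.mul_def] <;> ring
  · intro x z w y
    exact J8.jls x z w y

end Pool.Agent.Results.MP_75529e_al.SemiprimeIdeal
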